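import Pool.Agent.R783.T4.Main

/-!
# Rank-one convex hull versus iterated T4 hull for triangular matrices: a six-point counterexample

Points `(x, y, z)` stand for the upper triangular matrices with rows `(x, z)` and `(0, y)`.
Definitions (`Pool.Agent.R783.T4.Defs` and `Pool.Agent.R783.T4.Main`): `RankOneDir`,
`RankOneConvex`, `IsT4`, `step`, `iter`, `convRC`.
-/

set_option autoImplicit false

namespace Pool.Agent.Results.MP_400093_an.SixPoint

open Pool.Agent.R783.T4

/-- There is a set `K` of six upper triangular matrices and a point of the rank-one convex hull of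
`K` that lies in none of the sets `K^(i)`. -/
theorem result : ∃ K : Finset V, K.card = 6 ∧
    ∃ p ∈ convRC (K : Set V), ∀ i : ℕ, p ∉ iter convRC (K : Set V) i :=
  rc_ne_t4

end Pool.Agent.Results.MP_400093_an.SixPoint
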